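import Pool.Agent.W536.XI.Stm

/-! Project XI, task MOMC (Gaussian coefficient sums). -/

open Complex MeasureTheory Filter Topology

namespace W439.XI

open W536.XI

/-- one term of the Gaussian sum -/
theorem term_le (N : ℝ) (hN : 0 < N) (g : ℕ) (hg : 1 ≤ g) :
    Real.exp (-(Real.log g - Real.log N) ^ 2) ≤
      4 * Real.exp 1 * N ^ 2 * (1 / (N + g - 1) - 1 / (N + g)) := by
  have hg' : (1 : ℝ) ≤ g := by exact_mod_cast hg
  have hg0 : (0 : ℝ) < g := by linarith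
  have h1 : (0 : ℝ) < N + g - 1 := by linarith
  have h2 : (0 : ℝ) < N + g := by linarith
  have hd : 1 / (N + g - 1) - 1 / (N + (g : ℝ)) = 1 / ((N + g - 1) * (N + g)) := by
    field_simp
    ring
  have hlow : 1 / (N + (g : ℝ)) ^ 2 ≤ 1 / ((N + g - 1) * (N + g)) := by
    apply one_div_le_one_div_of_le (by positivity)
    nlinarith
  have he : (1 : ℝ) ≤ Real.exp 1 := by
    have := Real.add_one_le_exp (1 : ℝ); linarith
  have key : Real.exp (-(Real.log g - Real.log N) ^ 2) ≤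
      4 * Real.exp 1 * N ^ 2 * (1 / (N + g) ^ 2) := by
    by_cases hc : (g : ℝ) ≤ N
    · have a1 : Real.exp (-(Real.log g - Real.log N) ^ 2) ≤ 1 := by
        rw [Real.exp_le_one_iff]
        nlinarith [sq_nonneg (Real.log g - Real.log N)]
      have a2 : 1 ≤ 4 * N ^ 2 * (1 / (N + g) ^ 2) := by
        rw [mul_one_div, le_div_iff₀ (by positivity)]
        nlinarith
      have a3 : 4 * N ^ 2 * (1 / (N + g) ^ 2) ≤ 4 * Real.exp 1 * N ^ 2 * (1 / (N + g) ^ 2) := by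
        have : 0 ≤ 4 * N ^ 2 * (1 / (N + (g : ℝ)) ^ 2) := by positivity
        nlinarith
      linarith
    · push Not at hc
      have a1 : -(Real.log g - Real.log N) ^ 2 ≤ 1 - 2 * (Real.log g - Real.log N) := by
        nlinarith [sq_nonneg (Real.log g - Real.log N - 1)]
      have a2 : Real.exp (1 - 2 * (Real.log g - Real.log N)) = Real.exp 1 * (N ^ 2 / g ^ 2) := by
        have e1 : (1 : ℝ) - 2 * (Real.log g - Real.log N)
            = 1 + (Real.log (N ^ 2) - Real.log ((g : ℝ) ^ 2)) := by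
          rw [Real.log_pow, Real.log_pow]; push_cast; ring
        rw [e1, Real.exp_add, Real.exp_sub, Real.exp_log (by positivity),
          Real.exp_log (by positivity)]
      have a3 : N ^ 2 / (g : ℝ) ^ 2 ≤ 4 * (N ^ 2 / (N + g) ^ 2) := by
        rw [← mul_div_assoc, div_le_div_iff₀ (by positivity) (by positivity)]
        have : (N + g) ^ 2 ≤ 4 * (g : ℝ) ^ 2 := by nlinarith
        nlinarith [sq_nonneg N]
      calc Real.exp (-(Real.log g - Real.log N) ^ 2)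
          ≤ Real.exp (1 - 2 * (Real.log g - Real.log N)) := Real.exp_le_exp.mpr a1
        _ = Real.exp 1 * (N ^ 2 / g ^ 2) := a2
        _ ≤ Real.exp 1 * (4 * (N ^ 2 / (N + g) ^ 2)) :=
            mul_le_mul_of_nonneg_left a3 (Real.exp_pos 1).le
        _ = 4 * Real.exp 1 * N ^ 2 * (1 / (N + g) ^ 2) := by ring
  rw [hd]
  calc _ ≤ _ := key
    _ ≤ _ := mul_le_mul_of_nonneg_left hlow (by positivity)

theorem sum_tele (N : ℝ) (hN : 0 < N) (M : ℕ) :
    ∑ g ∈ Finset.Icc 1 M, (1 / (N + (g : ℝ) - 1) - 1 / (N + g)) = 1 / N - 1 / (N + M) := by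
  induction M with
  | zero => simp
  | succ k ih =>
    rw [Finset.sum_Icc_succ_top (by omega), ih]
    push_cast
    have : N + ((k : ℝ) + 1) - 1 = N + k := by ring
    rw [this]; ring

theorem gauss_le (N : ℝ) (hN : 0 < N) (M : ℕ) :
    ∑ g ∈ Finset.Icc 1 M, Real.exp (-(Real.log g - Real.log N) ^ 2) ≤ 4 * Real.exp 1 * N := by
  calc ∑ g ∈ Finset.Icc 1 M, Real.exp (-(Real.log g - Real.log N) ^ 2)
      ≤ ∑ g ∈ Finset.Icc 1 M, 4 * Real.exp 1 * N ^ 2 * (1 / (N + g - 1) - 1 / (N + g)) := by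
        apply Finset.sum_le_sum
        intro g hg
        exact term_le N hN g (Finset.mem_Icc.mp hg).1
    _ = 4 * Real.exp 1 * N ^ 2 * (1 / N - 1 / (N + M)) := by
        rw [← Finset.mul_sum, sum_tele N hN M]
    _ ≤ 4 * Real.exp 1 * N ^ 2 * (1 / N) := by
        apply mul_le_mul_of_nonneg_left _ (by positivity)
        have : (0 : ℝ) ≤ 1 / (N + M) := by positivity
        linarith
    _ = 4 * Real.exp 1 * N := by field_simp

theorem ac_mul (b : ℝ) (g p q : ℕ) (hg : 1 ≤ g) (hp : 1 ≤ p) (hq : 1 ≤ q) :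
    ac b (g * p) * ac b (g * q) =
      Real.exp (b ^ 2 / 2 - (1 / 2) * (Real.log p - Real.log q) ^ 2) *
        Real.exp (-(2 * (Real.log g - (b - Real.log p - Real.log q) / 2) ^ 2)) := by
  have hg' : (g : ℝ) ≠ 0 := by positivity
  have hp' : (p : ℝ) ≠ 0 := by positivity
  have hq' : (q : ℝ) ≠ 0 := by positivity
  unfold ac
  push_cast
  rw [Real.log_mul hg' hp', Real.log_mul hg' hq', ← Real.exp_add, ← Real.exp_add]
  congr 1
  ring

theorem part1 (b : ℝ) (M p q : ℕ) (hp : 1 ≤ p) (hq : 1 ≤ q) :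
    (∑ g ∈ Finset.Icc 1 M, ac b (g * p) * ac b (g * q)) ≤
      (4 * Real.exp 1) * Real.exp (b ^ 2 / 2 + b / 2) *
        (Real.exp (-(1 / 2) * (Real.log p - Real.log q) ^ 2) / Real.sqrt (p * q)) := by
  have hp' : (0 : ℝ) < p := by positivity
  have hq' : (0 : ℝ) < q := by positivity
  set N : ℝ := Real.exp ((b - Real.log p - Real.log q) / 2) with hNdef
  have hN : 0 < N := Real.exp_pos _
  have hlogN : Real.log N = (b - Real.log p - Real.log q) / 2 := by rw [hNdef, Real.log_exp]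
  have hNs : N = Real.exp (b / 2) / Real.sqrt (p * q) := by
    have : Real.sqrt (p * q) = Real.exp ((Real.log p + Real.log q) / 2) := by
      rw [Real.sqrt_eq_rpow, Real.rpow_def_of_pos (by positivity), Real.log_mul hp'.ne' hq'.ne']
      congr 1; ring
    rw [this, ← Real.exp_sub, hNdef]
    congr 1; ring
  calc (∑ g ∈ Finset.Icc 1 M, ac b (g * p) * ac b (g * q))
      ≤ ∑ g ∈ Finset.Icc 1 M, Real.exp (b ^ 2 / 2 - (1 / 2) * (Real.log p - Real.log q) ^ 2) *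
          Real.exp (-(Real.log g - Real.log N) ^ 2) := by
        apply Finset.sum_le_sum
        intro g hg
        rw [ac_mul b g p q (Finset.mem_Icc.mp hg).1 hp hq, hlogN]
        apply mul_le_mul_of_nonneg_left _ (Real.exp_pos _).le
        apply Real.exp_le_exp.mpr
        nlinarith [sq_nonneg (Real.log g - (b - Real.log p - Real.log q) / 2)]
    _ = Real.exp (b ^ 2 / 2 - (1 / 2) * (Real.log p - Real.log q) ^ 2) *
          ∑ g ∈ Finset.Icc 1 M, Real.exp (-(Real.log g - Real.log N) ^ 2) := by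
        rw [Finset.mul_sum]
    _ ≤ Real.exp (b ^ 2 / 2 - (1 / 2) * (Real.log p - Real.log q) ^ 2) *
          (4 * Real.exp 1 * N) :=
        mul_le_mul_of_nonneg_left (gauss_le N hN M) (Real.exp_pos _).le
    _ = (4 * Real.exp 1) * Real.exp (b ^ 2 / 2 + b / 2) *
        (Real.exp (-(1 / 2) * (Real.log p - Real.log q) ^ 2) / Real.sqrt (p * q)) := by
        rw [hNs]
        have e1 : b ^ 2 / 2 - (1 / 2) * (Real.log p - Real.log q) ^ 2
          = b ^ 2 / 2 + (-(1 / 2) * (Real.log p - Real.log q) ^ 2) := by ring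
        rw [e1, Real.exp_add (b ^ 2 / 2), Real.exp_add (b ^ 2 / 2) (b / 2)]
        ring

theorem ac_eq (b : ℝ) (n : ℕ) :
    ac b n = Real.exp (b ^ 2 / 4) * Real.exp (-(Real.log n - b / 2) ^ 2) := by
  unfold ac
  rw [← Real.exp_add]
  congr 1
  ring

theorem part3 (b : ℝ) (M : ℕ) :
    (∑ n ∈ Finset.Icc 1 M, ac b n) ≤ (4 * Real.exp 1) * Real.exp (b ^ 2 / 4 + b / 2) := by
  have h := gauss_le (Real.exp (b / 2)) (Real.exp_pos _) M
  rw [Real.log_exp] at h
  calc (∑ n ∈ Finset.Icc 1 M, ac b n)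
      = Real.exp (b ^ 2 / 4) * ∑ n ∈ Finset.Icc 1 M, Real.exp (-(Real.log n - b / 2) ^ 2) := by
        rw [Finset.mul_sum]
        exact Finset.sum_congr rfl (fun n _ => ac_eq b n)
    _ ≤ Real.exp (b ^ 2 / 4) * (4 * Real.exp 1 * Real.exp (b / 2)) :=
        mul_le_mul_of_nonneg_left h (Real.exp_pos _).le
    _ = _ := by rw [Real.exp_add]; ring

theorem part2 (b : ℝ) (hb : 2 ≤ b) (M : ℕ) (hM : Real.exp (b + 3) ≤ M) :
    (Real.exp (-2) / 2) * Real.exp (b ^ 2 / 2 + b / 2) ≤ ∑ n ∈ Finset.Icc 1 M, ac b n ^ 2 := by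
  set E : ℝ := Real.exp (b / 2) with hE
  have hE2 : 2 ≤ E := by
    have := Real.add_one_le_exp (b / 2)
    rw [hE]; linarith
  have hE0 : 0 < E := by linarith
  have hlE : Real.log E = b / 2 := by rw [hE, Real.log_exp]
  have h2E : 2 * E ≤ M := by
    have h1 : (2 : ℝ) ≤ Real.exp 1 := by
      have := Real.add_one_le_exp (1 : ℝ); linarith
    have h2 : Real.exp 1 * E ≤ Real.exp (b + 3) := by
      rw [hE, ← Real.exp_add]
      apply Real.exp_le_exp.mpr; linarith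
    nlinarith
  have hsub : Finset.Icc ⌈E⌉₊ ⌊2 * E⌋₊ ⊆ Finset.Icc 1 M := by
    intro n hn
    rw [Finset.mem_Icc] at hn ⊢
    constructor
    · have : 0 < ⌈E⌉₊ := Nat.ceil_pos.mpr hE0
      omega
    · have : ⌊2 * E⌋₊ ≤ M := by
        have := Nat.floor_le_floor h2E
        simpa using this
      omega
  have hterm : ∀ n ∈ Finset.Icc ⌈E⌉₊ ⌊2 * E⌋₊, Real.exp (b ^ 2 / 2) * Real.exp (-2) ≤ ac b n ^ 2 := by
    intro n hn
    rw [Finset.mem_Icc] at hn
    have hn1 : E ≤ n := le_trans (Nat.le_ceil E) (by exact_mod_cast hn.1)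
    have hn2 : (n : ℝ) ≤ 2 * E := le_trans (by exact_mod_cast hn.2) (Nat.floor_le (by positivity))
    have hn0 : (0 : ℝ) < n := by linarith
    have l1 : b / 2 ≤ Real.log n := by
      rw [← hlE]; exact Real.log_le_log hE0 hn1
    have l2 : Real.log n ≤ Real.log 2 + b / 2 := by
      rw [← hlE, ← Real.log_mul (by norm_num) hE0.ne']
      exact Real.log_le_log hn0 hn2
    have l3 : Real.log 2 ≤ 1 := by
      have := Real.log_two_lt_d9; linarith
    rw [ac_eq, mul_pow, ← Real.exp_nat_mul, ← Real.exp_nat_mul, ← Real.exp_add, ← Real.exp_add]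
    apply Real.exp_le_exp.mpr
    push_cast
    have : (Real.log n - b / 2) ^ 2 ≤ 1 := by nlinarith
    nlinarith
  have hcard : E / 2 ≤ ((Finset.Icc ⌈E⌉₊ ⌊2 * E⌋₊).card : ℝ) := by
    rw [Nat.card_Icc]
    have h1 : (⌈E⌉₊ : ℝ) < E + 1 := Nat.ceil_lt_add_one hE0.le
    have h2 : 2 * E < (⌊2 * E⌋₊ : ℝ) + 1 := Nat.lt_floor_add_one _
    have h3 : ⌈E⌉₊ ≤ ⌊2 * E⌋₊ + 1 := by
      have : (⌈E⌉₊ : ℝ) ≤ (⌊2 * E⌋₊ : ℝ) + 1 := by linarith
      exact_mod_cast this
    rw [Nat.cast_sub h3]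
    push_cast
    linarith
  calc (Real.exp (-2) / 2) * Real.exp (b ^ 2 / 2 + b / 2)
      = (E / 2) * (Real.exp (b ^ 2 / 2) * Real.exp (-2)) := by
        rw [Real.exp_add, ← hE]; ring
    _ ≤ ((Finset.Icc ⌈E⌉₊ ⌊2 * E⌋₊).card : ℝ) * (Real.exp (b ^ 2 / 2) * Real.exp (-2)) :=
        mul_le_mul_of_nonneg_right hcard (by positivity)
    _ = ∑ n ∈ Finset.Icc ⌈E⌉₊ ⌊2 * E⌋₊, Real.exp (b ^ 2 / 2) * Real.exp (-2) := by
        rw [Finset.sum_const, nsmul_eq_mul]
    _ ≤ ∑ n ∈ Finset.Icc ⌈E⌉₊ ⌊2 * E⌋₊, ac b n ^ 2 := Finset.sum_le_sum hterm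
    _ ≤ ∑ n ∈ Finset.Icc 1 M, ac b n ^ 2 :=
        Finset.sum_le_sum_of_subset_of_nonneg hsub (fun _ _ _ => sq_nonneg _)

/-- the terms of D on the line of real part -b -/
theorem term_norm (b u : ℝ) (n : ℕ) :
    cexp (-((-(b : ℂ) + I * u) * L n) - (L n : ℂ) ^ 2) =
      (ac b (n + 1) : ℂ) * cexp (-(I * u * (Real.log ((n + 1 : ℕ) : ℝ) : ℝ))) := by
  unfold ac L
  push_cast
  rw [← Complex.exp_add]
  congr 1
  ring

theorem ac_tail (b : ℝ) (hb : 0 ≤ b) (M : ℕ) (hM : Real.exp (b + 3) ≤ M) (n : ℕ) (hn : M ≤ n) :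
    ac b (n + 1) ≤ 1 / ((n : ℝ) + 1) ^ 2 := by
  have hnM : (M : ℝ) ≤ n := by exact_mod_cast hn
  have hpos : (0 : ℝ) < (n : ℝ) + 1 := by positivity
  have h1 : b + 3 ≤ Real.log ((n : ℝ) + 1) := by
    rw [Real.le_log_iff_exp_le hpos]; linarith
  unfold ac
  push_cast
  have h2 : b * Real.log ((n : ℝ) + 1) - Real.log ((n : ℝ) + 1) ^ 2
      ≤ -(2 * Real.log ((n : ℝ) + 1)) := by nlinarith
  calc Real.exp (b * Real.log ((n : ℝ) + 1) - Real.log ((n : ℝ) + 1) ^ 2)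
      ≤ Real.exp (-(2 * Real.log ((n : ℝ) + 1))) := Real.exp_le_exp.mpr h2
    _ = 1 / ((n : ℝ) + 1) ^ 2 := by
      have e1 : (2 : ℝ) * Real.log ((n : ℝ) + 1) = Real.log (((n : ℝ) + 1) ^ 2) := by
        rw [Real.log_pow]; push_cast; ring
      rw [Real.exp_neg, e1, Real.exp_log (by positivity), one_div]

theorem summ2 : Summable (fun n : ℕ => 1 / ((n : ℝ) + 1) ^ 2) := by
  have h := (summable_nat_add_iff 1).mpr (Real.summable_one_div_nat_pow.mpr (by norm_num : 1 < 2))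
  refine h.congr ?_
  intro n; push_cast; ring_nf

theorem part4 (b : ℝ) (hb : 0 ≤ b) (M : ℕ) (hM : Real.exp (b + 3) ≤ M) (u : ℝ) :
    ‖D (-(b : ℂ) + I * u) - P M (ac b) u‖ ≤ ∑' n : ℕ, 1 / ((n : ℝ) + 1) ^ 2 := by
  set f : ℕ → ℂ := fun n =>
    (ac b (n + 1) : ℂ) * cexp (-(I * u * (Real.log ((n + 1 : ℕ) : ℝ) : ℝ))) with hf
  have hfn : ∀ n, ‖f n‖ = ac b (n + 1) := by
    intro n
    rw [hf]
    simp only [norm_mul]
    have h1 : ‖cexp (-(I * u * (Real.log ((n + 1 : ℕ) : ℝ) : ℝ)))‖ = 1 := by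
      have : -(I * u * (Real.log ((n + 1 : ℕ) : ℝ) : ℝ)) =
        ((-(u * Real.log ((n + 1 : ℕ) : ℝ)) : ℝ) : ℂ) * I := by push_cast; ring
      rw [this, Complex.norm_exp_ofReal_mul_I]
    rw [h1, mul_one, Complex.norm_real, Real.norm_eq_abs, abs_of_pos]
    exact Real.exp_pos _
  have hD : D (-(b : ℂ) + I * u) = ∑' n, f n := by
    unfold D
    exact tsum_congr (fun n => term_norm b u n)
  have htail : ∀ i : ℕ, ‖f (i + M)‖ ≤ 1 / ((i : ℝ) + 1) ^ 2 := by
    intro i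
    rw [hfn]
    refine (ac_tail b hb M hM (i + M) (by omega)).trans ?_
    apply one_div_le_one_div_of_le (by positivity)
    have : (0 : ℝ) ≤ M := by positivity
    push_cast
    gcongr
    linarith
  have hs1 : Summable (fun i => ‖f (i + M)‖) :=
    Summable.of_nonneg_of_le (fun _ => norm_nonneg _) htail summ2
  have hs2 : Summable (fun i => f (i + M)) := hs1.of_norm
  have hs : Summable f := (summable_nat_add_iff M).mp hs2
  have hP : P M (ac b) u = ∑ i ∈ Finset.range M, f i := by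
    unfold P
    rw [Finset.range_eq_Ico, Finset.sum_Ico_add' (fun n : ℕ => (ac b n : ℂ) *
      cexp (-(I * u * (Real.log (n : ℝ) : ℝ)))) 0 M 1]
    rfl
  have hsplit := hs.sum_add_tsum_nat_add M
  rw [hD, hP, ← hsplit, add_sub_cancel_left]
  calc ‖∑' i, f (i + M)‖ ≤ ∑' i, ‖f (i + M)‖ := norm_tsum_le_tsum_norm hs1
    _ ≤ ∑' n : ℕ, 1 / ((n : ℝ) + 1) ^ 2 := hs1.tsum_le_tsum htail summ2

theorem momc : S_MOMC := by
  refine ⟨Real.exp (-2) / 2, 4 * Real.exp 1 + ∑' n : ℕ, 1 / ((n : ℝ) + 1) ^ 2, by positivity, ?_⟩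
  have hT : 0 ≤ ∑' n : ℕ, 1 / ((n : ℝ) + 1) ^ 2 := tsum_nonneg (fun n => by positivity)
  have he : 0 ≤ 4 * Real.exp 1 := by positivity
  intro b hb M hM
  refine ⟨?_, part2 b hb M hM, ?_, ?_⟩
  · intro p q hp hq
    refine (part1 b M p q hp hq).trans ?_
    gcongr
    linarith
  · refine (part3 b M).trans ?_
    gcongr
    linarith
  · intro u
    refine (part4 b (by linarith) M hM u).trans ?_
    linarith

end W439.XI
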